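import Pool.Agent.helper47.MSW.SpecA
import Pool.Agent.helper47.MSW.SpecC

set_option autoImplicit false

namespace Pool.Agent.MSW

open Equiv Finset Function MeasureTheory Pool.Agent.helper48.PP
open Pool.Agent.DSW (Pr Has GP wt)
open scoped ENNReal Classical

noncomputable section

theorem QDP_one (hHMN : HMN_stmt) (X Y : List Pat) (w p q : Pt) (ω ω' : Om)
    (H : ∀ c ∈ box 0 w \ box p q, ω c = ω' c) (hQ : Qe X Y ω w p q) : Qe X Y ω' w p q := by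
  obtain ⟨-, h2, h3, -, h5, h6, h7, -⟩ := hHMN
  obtain ⟨hp, hq, hpq, huniq⟩ := hQ
  have hqw : q ≤ w := h5 Y ω w q hq
  have hpw : p ≤ w := hpq.trans hqw
  have hp' : mnU X ω' p := by
    refine (h3 X p ω ω' fun c hc => H c ?_).1 hp
    rw [mem_box] at hc
    rw [Finset.mem_sdiff, mem_box, mem_box]
    refine ⟨⟨hc.1, lt_of_lt_of_le hc.2.1 hpw.1, lt_of_lt_of_le hc.2.2 hpw.2⟩, ?_⟩
    intro h
    exact absurd h.1.1 (not_le.2 hc.2.1)
  have hq' : mxV Y ω' w q := by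
    refine (h7 Y w q ω ω' fun c hc => H c ?_).1 hq
    rw [mem_box] at hc
    rw [Finset.mem_sdiff, mem_box, mem_box]
    refine ⟨⟨⟨Nat.zero_le _, Nat.zero_le _⟩, hc.2⟩, ?_⟩
    intro h
    exact absurd hc.1.1 (not_le.2 h.2.1)
  refine ⟨hp', hq', hpq, ?_⟩
  intro p1 q1 hp1 hq1 hpq1
  have hq1w : q1 ≤ w := h5 Y ω' w q1 hq1
  have hp1w : p1 ≤ w := hpq1.trans hq1w
  refine huniq p1 q1 ?_ ?_ hpq1
  · by_cases hne : p1 = p
    · rw [hne]
      exact hp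
    · have hnot : ¬ p ≤ p1 := fun hle => hne (h2 X ω' p p1 hp' hp1 hle).symm
      refine (h3 X p1 ω ω' fun c hc => H c ?_).2 hp1
      rw [mem_box] at hc
      rw [Finset.mem_sdiff, mem_box, mem_box]
      refine ⟨⟨hc.1, lt_of_lt_of_le hc.2.1 hp1w.1, lt_of_lt_of_le hc.2.2 hp1w.2⟩, ?_⟩
      intro h
      exact hnot ⟨h.1.1.trans hc.2.1.le, h.1.2.trans hc.2.2.le⟩
  · by_cases hne : q1 = q
    · rw [hne]
      exact hq
    · have hnot : ¬ q1 ≤ q := fun hle => hne (h6 Y ω' w q1 q hq1 hq' hle)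
      refine (h7 Y w q1 ω ω' fun c hc => H c ?_).2 hq1
      rw [mem_box] at hc
      rw [Finset.mem_sdiff, mem_box, mem_box]
      refine ⟨⟨⟨Nat.zero_le _, Nat.zero_le _⟩, hc.2⟩, ?_⟩
      intro h
      exact hnot ⟨hc.1.1.trans h.2.1.le, hc.1.2.trans h.2.2.le⟩

theorem QDP (hHLA : HLA_stmt) (hHMN : HMN_stmt) : QDP_stmt := by
  intro X Y w p q ω ω' H
  exact ⟨QDP_one hHMN X Y w p q ω ω' H,
    QDP_one hHMN X Y w p q ω' ω fun c hc => (H c hc).symm⟩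

end

end Pool.Agent.MSW
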