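import Pool.Agent.helper47.MSW.SpecA
import Pool.Agent.helper47.MSW.SpecC

set_option autoImplicit false

namespace Pool.Agent.MSW

open Equiv Finset Function MeasureTheory Pool.Agent.helper48.PP
open Pool.Agent.DSW (Pr Has GP wt)
open scoped ENNReal Classical

noncomputable section

theorem QIN (hHLA : HLA_stmt) (hHMN : HMN_stmt) (hGST : GST_stmt) : QIN_stmt := by
  intro X I I' Y ω ω' w hω
  obtain ⟨a1, a2, -, -, -, -, -⟩ := hHLA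
  obtain ⟨m1, -, -, m4, m5, -, -, -⟩ := hHMN
  have hsub : ∀ c, inG (X ++ I) (I' ++ Y) ω w c → inG X Y ω w c := by
    rintro c ⟨p, q, hp, hq, hc⟩
    obtain ⟨m, hm1, hm2⟩ := (a2 X I ω 0 p).1 hp.1
    obtain ⟨p0, hp0, hp0'⟩ := m1 X ω m hm1
    obtain ⟨m', hm1', hm2'⟩ := (a2 I' Y ω q w).1 hq.1
    obtain ⟨q0, hq0, hq0'⟩ := m4 Y ω m' w hm2'
    refine ⟨p0, q0, hp0', hq0', ?_⟩
    have h1 : p0 ≤ p := hp0.trans (a1 I ω m p hm2)
    have h2 : q ≤ q0 := (a1 I' ω q m' hm1').trans hq0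
    rw [mem_box] at hc ⊢
    exact ⟨⟨h1.1.trans hc.1.1, h1.2.trans hc.1.2⟩,
      lt_of_lt_of_le hc.2.1 h2.1, lt_of_lt_of_le hc.2.2 h2.2⟩
  obtain ⟨g1, g2, -⟩ := hGST X Y ω ω' w fun c hc hn => hω c hc fun h => hn (hsub c h)
  intro p q
  constructor
  · rintro ⟨hp, hq, hpq, hu⟩
    have hqw := m5 Y ω w q hq
    refine ⟨(g1 p (hpq.trans hqw)).1 hp, (g2 q).1 hq, hpq, ?_⟩
    intro p' q' hp' hq' hpq'
    have hqw' := m5 Y ω' w q' hq'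
    exact hu p' q' ((g1 p' (hpq'.trans hqw')).2 hp') ((g2 q').2 hq') hpq'
  · rintro ⟨hp, hq, hpq, hu⟩
    have hqw := m5 Y ω' w q hq
    refine ⟨(g1 p (hpq.trans hqw)).2 hp, (g2 q).2 hq, hpq, ?_⟩
    intro p' q' hp' hq' hpq'
    have hqw' := m5 Y ω w q' hq'
    exact hu p' q' ((g1 p' (hpq'.trans hqw')).1 hp') ((g2 q').1 hq') hpq'

end

end Pool.Agent.MSW
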