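import Pool.Agent.helper47.MSW.SpecA
import Pool.Agent.helper47.MSW.SpecC

set_option autoImplicit false

namespace Pool.Agent.MSW

open Equiv Finset Function MeasureTheory Pool.Agent.helper48.PP
open Pool.Agent.DSW (Pr Has GP wt)
open scoped ENNReal Classical

noncomputable section

theorem QSM (hMUM : MUM_stmt) (hIND : IND_stmt) (hHLA : HLA_stmt) (hSPT : SPT_stmt)
    (hQDP : QDP_stmt) : QSM_stmt := by
  intro d X Y w hd0 hd1
  obtain ⟨-, -, -, a4, -, -, -⟩ := hHLA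
  obtain ⟨-, s2, s3⟩ := hSPT
  have hQm : ∀ pq : Pt × Pt, MeasurableSet {ω : Om | Qe X Y ω w pq.1 pq.2} := fun pq =>
    (hMUM d _ _ hd0 hd1 (hQDP X Y w pq.1 pq.2)).1
  have hBm : ∀ (B : List Pat) (p q : Pt), MeasurableSet {ω : Om | HL B ω p q} := fun B p q =>
    (hMUM d _ _ hd0 hd1 (a4 B p q)).1
  have hdisj : ∀ pq pq' : Pt × Pt, pq ≠ pq' → ∀ ω : Om, Qe X Y ω w pq.1 pq.2 →
      ¬ Qe X Y ω w pq'.1 pq'.2 := by
    intro pq pq' hne ω h h'
    obtain ⟨e1, e2⟩ := s3 X Y ω w pq.1 pq.2 pq'.1 pq'.2 h h'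
    exact hne (Prod.ext e1 e2)
  refine ⟨?_, ?_, ?_, ?_⟩
  · intro B
    rw [← measure_iUnion]
    · refine measure_mono ?_
      intro ω hω
      obtain ⟨pq, h1, h2⟩ := Set.mem_iUnion.1 hω
      exact (s2 X B Y ω w pq.1 pq.2 h1).2 h2
    · intro pq pq' hne
      rw [Function.onFun, Set.disjoint_left]
      intro ω h h'
      exact hdisj pq pq' hne ω h.1 h'.1
    · intro pq
      exact (hQm pq).inter (hBm B _ _)
  · intro B p q
    exact hIND d _ _ _ _ hd0 hd1 (hQDP X Y w p q) (a4 B p q) Finset.sdiff_disjoint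
  · intro J F A hA
    have hAm : MeasurableSet A := (hMUM d F A hd0 hd1 hA).1
    let E : Pt × Pt → Set Om := fun pq =>
      if J pq.1 pq.2 then {ω | Qe X Y ω w pq.1 pq.2} else ∅
    have hEm : ∀ pq, MeasurableSet (E pq) := by
      intro pq
      show MeasurableSet (if J pq.1 pq.2 then {ω | Qe X Y ω w pq.1 pq.2} else ∅)
      split_ifs
      · exact hQm pq
      · exact MeasurableSet.empty
    have hEmem : ∀ pq ω, ω ∈ E pq ↔ J pq.1 pq.2 ∧ Qe X Y ω w pq.1 pq.2 := by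
      intro pq ω
      show ω ∈ (if J pq.1 pq.2 then {ω | Qe X Y ω w pq.1 pq.2} else ∅) ↔ _
      split_ifs with h
      · exact ⟨fun h' => ⟨h, h'⟩, fun h' => h'.2⟩
      · exact ⟨fun h' => h'.elim, fun h' => h h'.1⟩
    have hUm : MeasurableSet (⋃ pq, E pq) := MeasurableSet.iUnion hEm
    have h1 := measure_inter_add_sdiff (μ := Pm d) A hUm
    have h2 : A \ (⋃ pq, E pq) = A ∩ {ω | ∀ p q, J p q → ¬ Qe X Y ω w p q} := by
      ext ω
      constructor
      · rintro ⟨hω, hn⟩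
        refine ⟨hω, fun p q hJ hQ => hn ?_⟩
        exact Set.mem_iUnion.2 ⟨(p, q), (hEmem _ _).2 ⟨hJ, hQ⟩⟩
      · rintro ⟨hω, hn⟩
        refine ⟨hω, fun hU => ?_⟩
        obtain ⟨pq, hpq⟩ := Set.mem_iUnion.1 hU
        obtain ⟨hJ, hQ⟩ := (hEmem _ _).1 hpq
        exact hn pq.1 pq.2 hJ hQ
    have h3 : Pm d (A ∩ ⋃ pq, E pq) =
        ∑' pq : Pt × Pt, if J pq.1 pq.2 then Pm d (A ∩ {ω | Qe X Y ω w pq.1 pq.2}) else 0 := by
      rw [Set.inter_iUnion, measure_iUnion]
      · refine tsum_congr fun pq => ?_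
        show Pm d (A ∩ (if J pq.1 pq.2 then {ω | Qe X Y ω w pq.1 pq.2} else ∅)) = _
        split_ifs
        · rfl
        · rw [Set.inter_empty, measure_empty]
      · intro pq pq' hne
        rw [Function.onFun, Set.disjoint_left]
        intro ω h h'
        exact hdisj pq pq' hne ω ((hEmem _ _).1 h.2).2 ((hEmem _ _).1 h'.2).2
      · intro pq
        exact hAm.inter (hEm pq)
    rw [← h1, h2, h3, add_comm]
  · rw [← measure_iUnion]
    · exact prob_le_one
    · intro pq pq' hne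
      rw [Function.onFun, Set.disjoint_left]
      intro ω h h'
      exact hdisj pq pq' hne ω h h'
    · exact hQm

end

end Pool.Agent.MSW
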